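import Pool.Agent.Helper45.CF.GoalsA
import Pool.Agent.Helper4.CR.TADD
import Pool.Agent.Helper28.CR.TCOR
import Pool.Agent.Helper91.CR.TZ
import Pool.Agent.Helper36.CR.TNEG

/-!
# Project CF (MP_d97caa_an), packet CF-BOTT: half of Bott periodicity
-/

open scoped ComplexOrder ZeroAtInfty Topology ComplexConjugate
open TopologicalSpace Filter

namespace Pool.Agent.Helper54.CF

open Pool.Agent.Helper34.CAR Pool.Agent.Helper39.CR Pool.Agent.Helper45.CF
open Pool.Agent.Helper36.CR (mu munits cornH cornH_apply mu_apply)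

noncomputable section

/-! ### Continuity of matrix entries -/

theorem continuous_entry {I B : Type} [Fintype I] [DecidableEq I] [CStarAlgebra B] (i j : I) :
    Continuous fun a : Mt I B => a i j := by
  refine LipschitzWith.continuous (K := 1) (LipschitzWith.of_dist_le_mul fun a b => ?_)
  rw [dist_eq_norm, dist_eq_norm, NNReal.coe_one, one_mul]
  exact Mt.norm_entry_le (a - b) i j

theorem continuous_mu {I B : Type} [Fintype I] [DecidableEq I] [CStarAlgebra B] (i j : I) :
    Continuous (mu i j : B →ₗ[ℂ] Mt I B) :=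
  AddMonoidHomClass.continuous_of_bound (mu i j : B →ₗ[ℂ] Mt I B) 1 fun x => by
    rw [one_mul]
    exact Mt.norm_single_le i j x

theorem continuous_mt {X I B : Type} [TopologicalSpace X] [Fintype I] [DecidableEq I]
    [CStarAlgebra B] {f : X → Mt I B} (h : ∀ i j, Continuous fun x => f x i j) :
    Continuous f := by
  have e : f = fun x => ∑ i, ∑ j, mu i j (f x i j) := funext fun x => Mt.eq_sum_single (f x)
  rw [e]
  refine continuous_finsetSum _ fun i _ => continuous_finsetSum _ fun j _ => ?_
  exact (continuous_mu i j).comp (h i j)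

/-! ### Homomorphisms from columns -/

section col

variable {I W G : Type} [Fintype I] [DecidableEq I] [CStarAlgebra W] [CStarAlgebra G]

/-- The homomorphism `w ↦ Ξ r(w) Ξ*` for a column `Ξ` with `Ξ* Ξ = 1`. -/
def colH (r : W →⋆ₐ[ℂ] G) (Ξ : I → G) (h : ∑ i, star (Ξ i) * Ξ i = 1) : W →⋆ₙₐ[ℂ] Mt I G where
  toFun w := Mt.of fun i j => Ξ i * r w * star (Ξ j)
  map_smul' c w := by
    refine Mt.ext fun i j => ?_
    rw [Mt.of_apply, Mt.smul_apply, Mt.of_apply]
    simp only [map_smul, mul_smul_comm, smul_mul_assoc, MonoidHom.id_apply]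
  map_zero' := by
    refine Mt.ext fun i j => ?_
    rw [Mt.of_apply, map_zero, mul_zero, zero_mul]
    rfl
  map_add' a b := by
    refine Mt.ext fun i j => ?_
    rw [Mt.add_apply, Mt.of_apply, Mt.of_apply, Mt.of_apply, map_add, mul_add, add_mul]
  map_mul' a b := by
    refine Mt.ext fun i j => ?_
    rw [Mt.mul_apply, Mt.of_apply]
    simp only [Mt.of_apply]
    have e : ∀ k, Ξ i * r a * star (Ξ k) * (Ξ k * r b * star (Ξ j)) =
        Ξ i * r a * (star (Ξ k) * Ξ k) * (r b * star (Ξ j)) := fun k => by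
      simp only [mul_assoc]
    rw [Finset.sum_congr rfl fun k _ => e k, ← Finset.sum_mul, ← Finset.mul_sum, h, mul_one,
      map_mul]
    simp only [mul_assoc]
  map_star' a := by
    refine Mt.ext fun i j => ?_
    rw [Mt.star_apply, Mt.of_apply, Mt.of_apply, star_mul, star_mul, star_star, map_star,
      mul_assoc]

theorem colH_apply (r : W →⋆ₐ[ℂ] G) (Ξ : I → G) (h : ∑ i, star (Ξ i) * Ξ i = 1) (w : W)
    (i j : I) : colH r Ξ h w i j = Ξ i * r w * star (Ξ j) := rfl

end col

/-! ### Padding -/

section pad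

variable {G : Type} [CStarAlgebra G]

/-- Padding by zeros. -/
def padF (a : Mt (Fin 2) G) : Mt (Option (Fin 2)) G := Mt.of fun x y =>
  match x, y with
  | some i, some j => a i j
  | _, _ => 0

theorem padF_some (a : Mt (Fin 2) G) (i j : Fin 2) : padF a (some i) (some j) = a i j := rfl

theorem padF_none (a : Mt (Fin 2) G) (x : Option (Fin 2)) : padF a none x = 0 := rfl

theorem padF_none' (a : Mt (Fin 2) G) (x : Option (Fin 2)) : padF a x none = 0 := by
  cases x <;> rfl

/-- Padding by zeros as a homomorphism. -/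
def padH : Mt (Fin 2) G →⋆ₙₐ[ℂ] Mt (Option (Fin 2)) G where
  toFun := padF
  map_smul' c a := by
    refine Mt.ext fun x y => ?_
    rw [Mt.smul_apply]
    rcases x with _ | i
    · rw [padF_none, padF_none, smul_zero]
    · rcases y with _ | j
      · rw [padF_none', padF_none', smul_zero]
      · rfl
  map_zero' := by
    refine Mt.ext fun x y => ?_
    rcases x with _ | i
    · rfl
    · rcases y with _ | j
      · rfl
      · rfl
  map_add' a b := by
    refine Mt.ext fun x y => ?_
    rw [Mt.add_apply]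
    rcases x with _ | i
    · rw [padF_none, padF_none, padF_none, add_zero]
    · rcases y with _ | j
      · rw [padF_none', padF_none', padF_none', add_zero]
      · rfl
  map_mul' a b := by
    refine Mt.ext fun x y => ?_
    rw [Mt.mul_apply, Fintype.sum_option, padF_none', padF_none, zero_mul, zero_add]
    rcases x with _ | i
    · rw [padF_none]
      exact (Finset.sum_eq_zero fun k _ => by rw [padF_none, zero_mul]).symm
    · rcases y with _ | j
      · rw [padF_none']
        exact (Finset.sum_eq_zero fun k _ => by rw [padF_none', mul_zero]).symm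
      · rfl
  map_star' a := by
    refine Mt.ext fun x y => ?_
    rw [Mt.star_apply]
    rcases x with _ | i
    · rw [padF_none, padF_none', star_zero]
    · rcases y with _ | j
      · rw [padF_none', padF_none, star_zero]
      · rfl

theorem padH_corn (i : Fin 2) :
    (padH : Mt (Fin 2) G →⋆ₙₐ[ℂ] Mt (Option (Fin 2)) G).comp (cornH i) = cornH (some i) := by
  refine DFunLike.ext _ _ fun g => Mt.ext fun x y => ?_
  change padF (Mt.single i i g) x y = Mt.single (some i) (some i) g x y
  rw [Mt.single_apply]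
  rcases x with _ | x
  · rw [padF_none, if_neg]
    rintro ⟨h, -⟩
    cases h
  · rcases y with _ | y
    · rw [padF_none', if_neg]
      rintro ⟨-, h⟩
      cases h
    · rw [padF_some, Mt.single_apply]
      simp only [Option.some.injEq]

end pad

/-! ### Matrices over the functions on the sphere -/

section phi

variable {W G : Type} [CStarAlgebra W] [CStarAlgebra G]

/-- The entries of a matrix valued function. -/
def ent (f : C(Sphere2, Mt (Fin 2) W)) (i j : Fin 2) : C(Sphere2, W) :=
  ⟨fun y => f y i j, (continuous_entry i j).comp f.continuous⟩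

theorem ent_apply (f : C(Sphere2, Mt (Fin 2) W)) (i j : Fin 2) (y : Sphere2) :
    ent f i j y = f y i j := rfl

/-- Entrywise application of `Φ`. -/
def phiH (Φ : C(Sphere2, W) →⋆ₐ[ℂ] G) : C(Sphere2, Mt (Fin 2) W) →⋆ₙₐ[ℂ] Mt (Fin 2) G where
  toFun f := Mt.of fun i j => Φ (ent f i j)
  map_smul' c f := by
    refine Mt.ext fun i j => ?_
    rw [Mt.of_apply, Mt.smul_apply, Mt.of_apply]
    have e : ent (c • f) i j = c • ent f i j := rfl
    rw [e, map_smul]
    rfl
  map_zero' := by
    refine Mt.ext fun i j => ?_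
    rw [Mt.of_apply]
    have e : ent (0 : C(Sphere2, Mt (Fin 2) W)) i j = 0 := rfl
    rw [e, map_zero]
    rfl
  map_add' a b := by
    refine Mt.ext fun i j => ?_
    rw [Mt.add_apply, Mt.of_apply, Mt.of_apply, Mt.of_apply]
    have e : ent (a + b) i j = ent a i j + ent b i j := rfl
    rw [e, map_add]
  map_mul' a b := by
    refine Mt.ext fun i j => ?_
    rw [Mt.mul_apply, Mt.of_apply]
    have e : ent (a * b) i j = ∑ k, ent a i k * ent b k j := by
      ext y
      rw [ContinuousMap.sum_apply]
      rfl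
    rw [e, map_sum]
    refine Finset.sum_congr rfl fun k _ => ?_
    rw [map_mul]
    rfl
  map_star' a := by
    refine Mt.ext fun i j => ?_
    rw [Mt.star_apply, Mt.of_apply, Mt.of_apply]
    have e : ent (star a) i j = star (ent a j i) := rfl
    rw [e, map_star]

theorem phiH_apply (Φ : C(Sphere2, W) →⋆ₐ[ℂ] G) (f : C(Sphere2, Mt (Fin 2) W)) (i j : Fin 2) :
    phiH Φ f i j = Φ (ent f i j) := rfl

end phi

/-! ### The homotopy -/

section homotopy

variable {W G : Type} [CStarAlgebra W] [CStarAlgebra G]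

/-- The rotated column. -/
def colX (ξ : Fin 2 → G) (c s : ℝ) : Option (Fin 2) → G
  | none => (c : ℂ) • 1
  | some i => (s : ℂ) • ξ i

theorem colX_iso {ξ : Fin 2 → G} (h : star (ξ 0) * ξ 0 + star (ξ 1) * ξ 1 = 1) {c s : ℝ}
    (hcs : c ^ 2 + s ^ 2 = 1) : ∑ i, star (colX ξ c s i) * colX ξ c s i = 1 := by
  rw [Fintype.sum_option, Fin.sum_univ_two]
  simp only [colX, star_smul, star_one, smul_mul_smul_comm, mul_one, Complex.star_def,
    Complex.conj_ofReal]
  rw [← smul_add, h, ← add_smul]
  have e : (c : ℂ) * c + (s : ℂ) * s = 1 := by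
    rw [← sq, ← sq]
    exact_mod_cast hcs
  rw [e, one_smul]

theorem homotopy_col (T : Theory) (i : ZMod 2) [SeparableSpace W] [SeparableSpace G]
    (r : W →⋆ₐ[ℂ] G) (ξ : Fin 2 → G) (h : star (ξ 0) * ξ 0 + star (ξ 1) * ξ 1 = 1)
    (h' : ∑ i, star (ξ i) * ξ i = 1) :
    T.map i ((cornH none : G →⋆ₙₐ[ℂ] Mt (Option (Fin 2)) G).comp r.toNonUnitalStarAlgHom) =
      T.map i (padH.comp (colH r ξ h')) := by
  let H : unitInterval → (W →⋆ₙₐ[ℂ] Mt (Option (Fin 2)) G) := fun t =>
    colH r (colX ξ (Real.cos (Real.pi * t / 2)) (Real.sin (Real.pi * t / 2)))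
      (colX_iso h (Real.cos_sq_add_sin_sq _))
  have hc : ∀ w, Continuous fun t => H t w := by
    intro w
    refine continuous_mt fun x y => ?_
    have hX : ∀ x : Option (Fin 2), Continuous fun t : unitInterval =>
        colX ξ (Real.cos (Real.pi * t / 2)) (Real.sin (Real.pi * t / 2)) x := by
      intro x
      rcases x with _ | x
      · change Continuous fun t : unitInterval =>
          ((Real.cos (Real.pi * t / 2) : ℝ) : ℂ) • (1 : G)
        fun_prop
      · change Continuous fun t : unitInterval =>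
          ((Real.sin (Real.pi * t / 2) : ℝ) : ℂ) • ξ x
        fun_prop
    change Continuous fun t : unitInterval =>
      colX ξ (Real.cos (Real.pi * t / 2)) (Real.sin (Real.pi * t / 2)) x * r w *
        star (colX ξ (Real.cos (Real.pi * t / 2)) (Real.sin (Real.pi * t / 2)) y)
    exact ((hX x).mul continuous_const).mul (hX y).star
  have key := T.homotopy i W (Mt (Option (Fin 2)) G) H hc
  have h0 : H 0 = (cornH none : G →⋆ₙₐ[ℂ] Mt (Option (Fin 2)) G).comp
      r.toNonUnitalStarAlgHom := by
    refine DFunLike.ext _ _ fun w => Mt.ext fun x y => ?_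
    change colX ξ (Real.cos (Real.pi * ((0 : unitInterval) : ℝ) / 2))
        (Real.sin (Real.pi * ((0 : unitInterval) : ℝ) / 2)) x * r w *
        star (colX ξ (Real.cos (Real.pi * ((0 : unitInterval) : ℝ) / 2))
        (Real.sin (Real.pi * ((0 : unitInterval) : ℝ) / 2)) y) = Mt.single none none (r w) x y
    have e1 : Real.pi * ((0 : unitInterval) : ℝ) / 2 = 0 := by simp
    rw [e1, Real.cos_zero, Real.sin_zero, Mt.single_apply]
    rcases x with _ | x
    · rcases y with _ | y
      · rw [if_pos ⟨rfl, rfl⟩]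
        simp [colX]
      · rw [if_neg (fun hh => by cases hh.2)]
        simp [colX]
    · rw [if_neg (fun hh => by cases hh.1)]
      simp [colX]
  have h1 : H 1 = padH.comp (colH r ξ h') := by
    refine DFunLike.ext _ _ fun w => Mt.ext fun x y => ?_
    change colX ξ (Real.cos (Real.pi * ((1 : unitInterval) : ℝ) / 2))
        (Real.sin (Real.pi * ((1 : unitInterval) : ℝ) / 2)) x * r w *
        star (colX ξ (Real.cos (Real.pi * ((1 : unitInterval) : ℝ) / 2))
        (Real.sin (Real.pi * ((1 : unitInterval) : ℝ) / 2)) y) = padF (colH r ξ h' w) x y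
    have e1 : Real.pi * ((1 : unitInterval) : ℝ) / 2 = Real.pi / 2 := by simp
    rw [e1, Real.cos_pi_div_two, Real.sin_pi_div_two]
    rcases x with _ | x
    · rw [padF_none]
      simp [colX]
    · rcases y with _ | y
      · rw [padF_none']
        simp [colX]
      · rw [padF_some, colH_apply]
        simp [colX]
  rw [h0, h1] at key
  exact key

end homotopy

theorem t (hTOE : S_TOE) : S_BOTT := by
  intro T i W _ _ P E hP hE x
  obtain ⟨G, _, r, Φ, ε, ξ, hG, hT, hs⟩ := hTOE W
  have hiso : ∑ i, star (ξ i) * ξ i = 1 := by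
    rw [Fin.sum_univ_two]
    exact hT.iso
  obtain ⟨y₁, hy₁⟩ := hs T i x
  obtain ⟨y₃, hy₃⟩ := (T.stable i G (Mt (Option (Fin 2)) G) (Option (Fin 2)) mu munits none
    (cornH none) (fun _ => rfl)).2 y₁
  have hcor : ∀ k : Option (Fin 2), T.map i (cornH k : G →⋆ₙₐ[ℂ] Mt (Option (Fin 2)) G) y₃ = y₁ := by
    intro k
    rw [← hy₃, Pool.Agent.Helper28.CR.tcor T i G (Mt (Option (Fin 2)) G) (Option (Fin 2)) mu munits
      k none (cornH k) (cornH none) (fun _ => rfl) (fun _ => rfl)]
  have hcor2 : ∀ k : Fin 2, T.map i (cornH k : G →⋆ₙₐ[ℂ] Mt (Fin 2) G) (T.map i padH y₃) =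
      y₁ := by
    intro k
    rw [← T.map_comp, padH_corn]
    exact hcor (some k)
  refine ⟨T.map i (phiH Φ) (T.map i padH y₃), ?_⟩
  rw [← T.map_comp i W _ _ P (phiH Φ), ← T.map_comp i W _ _ E (phiH Φ)]
  -- the projection
  have h1 : T.map i ((phiH Φ).comp P) (T.map i padH y₃) =
      T.map i (colH r ξ hiso) (T.map i padH y₃) +
        T.map i ((cornH (1 : Fin 2) : G →⋆ₙₐ[ℂ] Mt (Fin 2) G).comp ε) (T.map i padH y₃) := by
    let f : Fin 2 → (W →⋆ₙₐ[ℂ] Mt (Fin 2) G) := fun j =>
      if j = 0 then colH r ξ hiso else (cornH (1 : Fin 2)).comp ε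
    have f0 : f 0 = colH r ξ hiso := if_pos rfl
    have f1 : f 1 = (cornH (1 : Fin 2)).comp ε := if_neg one_ne_zero
    have ho1 : ∀ w w', star (ξ 1) * ε w = 0 ∧ ε w' * ξ 1 = 0 := by
      intro w w'
      refine ⟨hT.orth w, ?_⟩
      have h2 := congrArg star (hT.orth (star w'))
      rwa [star_mul, star_star, star_zero, ← map_star, star_star] at h2
    have hor : ∀ j k, j ≠ k → ∀ a b, f j a * f k b = 0 := by
      have hA : ∀ a b, f 0 a * f 1 b = 0 := by
        intro a b
        rw [f0, f1]
        refine Mt.ext fun p q => ?_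
        rw [Mt.mul_apply]
        refine Finset.sum_eq_zero fun k _ => ?_
        change (ξ p * r a * star (ξ k)) * Mt.single 1 1 (ε b) k q = 0
        rw [Mt.single_apply]
        split_ifs with hk
        · rw [hk.1, mul_assoc, (ho1 b b).1, mul_zero]
        · rw [mul_zero]
      have hB : ∀ a b, f 1 a * f 0 b = 0 := by
        intro a b
        rw [f0, f1]
        refine Mt.ext fun p q => ?_
        rw [Mt.mul_apply]
        refine Finset.sum_eq_zero fun k _ => ?_
        change Mt.single 1 1 (ε a) p k * (ξ k * r b * star (ξ q)) = 0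
        rw [Mt.single_apply]
        split_ifs with hk
        · rw [hk.2, ← mul_assoc, ← mul_assoc, (ho1 a a).2, zero_mul, zero_mul]
        · rw [zero_mul]
      intro j k hjk a b
      fin_cases j <;> fin_cases k
      · exact absurd rfl hjk
      · exact hA a b
      · exact hB a b
      · exact absurd rfl hjk
    have hsum : ∀ a, ((phiH Φ).comp P) a = ∑ j, f j a := by
      intro a
      rw [Fin.sum_univ_two, f0, f1]
      refine Mt.ext fun p q => ?_
      rw [Mt.add_apply]
      change Φ (ent (P a) p q) = ξ p * r a * star (ξ q) + Mt.single 1 1 (ε a) p q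
      rw [hT.bott p q a (ent (P a) p q) (fun y => hP a y p q), Mt.single_apply]
    have h3 := Pool.Agent.Helper4.CR.tadd Pool.Agent.Helper91.CR.tz T i W (Mt (Fin 2) G) (Fin 2) f
      ((phiH Φ).comp P) hor hsum (T.map i padH y₃)
    rw [Fin.sum_univ_two, f0, f1] at h3
    exact h3
  have h2 : T.map i (colH r ξ hiso) (T.map i padH y₃) = T.map i r.toNonUnitalStarAlgHom y₁ := by
    rw [← T.map_comp, ← homotopy_col T i r ξ hT.iso hiso, T.map_comp, hcor none]
  have h3 : T.map i ((cornH (1 : Fin 2) : G →⋆ₙₐ[ℂ] Mt (Fin 2) G).comp ε) (T.map i padH y₃) =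
      x := by
    rw [T.map_comp, hcor2 1, hy₁]
  have h4 : T.map i ((phiH Φ).comp E) (T.map i padH y₃) = T.map i r.toNonUnitalStarAlgHom y₁ := by
    have e : (phiH Φ).comp E =
        (cornH (0 : Fin 2) : G →⋆ₙₐ[ℂ] Mt (Fin 2) G).comp r.toNonUnitalStarAlgHom := by
      refine DFunLike.ext _ _ fun w => Mt.ext fun p q => ?_
      change Φ (ent (E w) p q) = Mt.single 0 0 (r w) p q
      rw [Mt.single_apply]
      split_ifs with hpq
      · rw [← hT.const w]
        congr 1
        ext y
        rw [ent_apply, hE, Mt.single_apply, if_pos hpq]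
        rfl
      · rw [← map_zero Φ]
        congr 1
        ext y
        rw [ent_apply, hE, Mt.single_apply, if_neg hpq]
        rfl
    rw [e, T.map_comp, hcor2 0]
  rw [h1, h2, h3, h4]

end

end Pool.Agent.Helper54.CF
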